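import Pool.Agent.H32.N6.TargetsB

/-!
# Two quadrics in `ℙ⁶`: good places, the diagonal form near a root
-/

set_option autoImplicit false

open Polynomial NumberField IsDedekindDomain Matrix Pool.Agent.H32.QC Pool.Agent.H34.N6
  Pool.Agent.H32.N6

namespace Pool.Agent.H7.N6B

section ex

variable {F : Type*} [Field F]

/-- the block matrix with blocks `A` and `w` -/
private def ex {n : ℕ} (A : Matrix (Fin n) (Fin n) F) (w : F) :
    Matrix (Fin (n + 1)) (Fin (n + 1)) F :=
  fun i j => Fin.lastCases (motive := fun _ => F) (Fin.lastCases (motive := fun _ => F) w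
    (fun _ => 0) j) (fun i' => Fin.lastCases (motive := fun _ => F) 0 (fun j' => A i' j') j) i

private theorem ex_cc {n : ℕ} (A : Matrix (Fin n) (Fin n) F) (w : F) (i j : Fin n) :
    ex A w i.castSucc j.castSucc = A i j := by
  unfold ex
  simp

private theorem ex_cl {n : ℕ} (A : Matrix (Fin n) (Fin n) F) (w : F) (i : Fin n) :
    ex A w i.castSucc (Fin.last n) = 0 := by
  unfold ex
  simp

private theorem ex_lc {n : ℕ} (A : Matrix (Fin n) (Fin n) F) (w : F) (j : Fin n) :
    ex A w (Fin.last n) j.castSucc = 0 := by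
  unfold ex
  simp

private theorem ex_ll {n : ℕ} (A : Matrix (Fin n) (Fin n) F) (w : F) :
    ex A w (Fin.last n) (Fin.last n) = w := by
  unfold ex
  simp

private theorem eq_ex {n : ℕ} {A : Matrix (Fin n) (Fin n) F} {w : F}
    {M : Matrix (Fin (n + 1)) (Fin (n + 1)) F}
    (h1 : ∀ i j, M (Fin.castSucc i) (Fin.castSucc j) = A i j)
    (h2 : ∀ i, M (Fin.castSucc i) (Fin.last n) = 0)
    (h3 : ∀ i, M (Fin.last n) (Fin.castSucc i) = 0)
    (h4 : M (Fin.last n) (Fin.last n) = w) : M = ex A w := by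
  ext i j
  induction i using Fin.lastCases with
  | last =>
    induction j using Fin.lastCases with
    | last => rw [h4, ex_ll]
    | cast j => rw [h3, ex_lc]
  | cast i =>
    induction j using Fin.lastCases with
    | last => rw [h2, ex_cl]
    | cast j => rw [h1, ex_cc]

private theorem ex_mul {n : ℕ} (A B : Matrix (Fin n) (Fin n) F) (w z : F) :
    ex A w * ex B z = ex (A * B) (w * z) := by
  apply eq_ex
  · intro i j
    rw [Matrix.mul_apply, Fin.sum_univ_castSucc, ex_cl, zero_mul, add_zero, Matrix.mul_apply]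
    apply Finset.sum_congr rfl
    intro k _
    rw [ex_cc, ex_cc]
  · intro i
    rw [Matrix.mul_apply, Fin.sum_univ_castSucc, ex_cl, zero_mul, add_zero]
    apply Finset.sum_eq_zero
    intro k _
    rw [ex_cl, mul_zero]
  · intro i
    rw [Matrix.mul_apply, Fin.sum_univ_castSucc, ex_lc, mul_zero, add_zero]
    apply Finset.sum_eq_zero
    intro k _
    rw [ex_lc, zero_mul]
  · rw [Matrix.mul_apply, Fin.sum_univ_castSucc, ex_ll, ex_ll]
    rw [Finset.sum_eq_zero, zero_add]
    intro k _
    rw [ex_lc, zero_mul]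

private theorem ex_transpose {n : ℕ} (A : Matrix (Fin n) (Fin n) F) (w : F) :
    (ex A w)ᵀ = ex Aᵀ w := by
  apply eq_ex
  · intro i j
    rw [Matrix.transpose_apply, ex_cc, Matrix.transpose_apply]
  · intro i
    rw [Matrix.transpose_apply, ex_lc]
  · intro i
    rw [Matrix.transpose_apply, ex_cl]
  · rw [Matrix.transpose_apply, ex_ll]

private theorem ex_diag {n : ℕ} (u : Fin n → F) (w : F) :
    Matrix.diagonal (Fin.snoc u w : Fin (n + 1) → F) = ex (Matrix.diagonal u) w := by
  apply eq_ex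
  · intro i j
    by_cases h : i = j
    · subst h
      rw [Matrix.diagonal_apply_eq, Matrix.diagonal_apply_eq, Fin.snoc_castSucc]
    · rw [Matrix.diagonal_apply_ne _ h, Matrix.diagonal_apply_ne]
      intro h1
      exact h (Fin.castSucc_injective _ h1)
  · intro i
    rw [Matrix.diagonal_apply_ne]
    exact (Fin.castSucc_lt_last i).ne
  · intro i
    rw [Matrix.diagonal_apply_ne]
    exact (Fin.castSucc_lt_last i).ne'
  · rw [Matrix.diagonal_apply_eq, Fin.snoc_last]

private theorem ex_det {n : ℕ} (A : Matrix (Fin n) (Fin n) F) (w : F) :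
    (ex A w).det = A.det * w := by
  rw [Matrix.det_succ_row _ (Fin.last n), Fin.sum_univ_castSucc]
  rw [Finset.sum_eq_zero, zero_add, ex_ll]
  · have h1 : (ex A w).submatrix (Fin.last n).succAbove (Fin.last n).succAbove = A := by
      ext i j
      rw [Matrix.submatrix_apply, Fin.succAbove_last, ex_cc]
    rw [h1]
    have h2 : ((-1 : F)) ^ (((Fin.last n : Fin (n + 1)) : ℕ) + ((Fin.last n : Fin (n + 1)) : ℕ))
        = 1 := by
      rw [← two_mul, pow_mul]
      simp
    rw [h2, one_mul, mul_comm]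
  · intro j _
    rw [ex_lc, mul_zero, zero_mul]

end ex

section integral

variable {F : Type*} [NormedField F] [IsUltrametricDist F]

set_option linter.unusedSectionVars false

private def In (g : F[X]) : Prop := ∀ i, ‖g.coeff i‖ ≤ 1

private theorem norm_sum_le_one {ι : Type*} (s : Finset ι) (f : ι → F)
    (h : ∀ i ∈ s, ‖f i‖ ≤ 1) : ‖∑ i ∈ s, f i‖ ≤ 1 :=
  IsUltrametricDist.norm_sum_le_of_forall_le_of_nonneg zero_le_one h

private theorem norm_mul_le_one {a b : F} (ha : ‖a‖ ≤ 1) (hb : ‖b‖ ≤ 1) : ‖a * b‖ ≤ 1 := by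
  rw [norm_mul]
  exact mul_le_one₀ ha (norm_nonneg b) hb

private theorem norm_pow_le_one {a : F} (ha : ‖a‖ ≤ 1) (n : ℕ) : ‖a ^ n‖ ≤ 1 := by
  rw [norm_pow]
  exact pow_le_one₀ (norm_nonneg a) ha

private theorem In.mul {g h : F[X]} (hg : In g) (hh : In h) : In (g * h) := by
  intro i
  rw [coeff_mul]
  apply norm_sum_le_one
  intro x _
  exact norm_mul_le_one (hg _) (hh _)

private theorem In.X : In (X : F[X]) := by
  intro i
  rw [coeff_X]
  split_ifs
  · rw [norm_one]
  · rw [norm_zero]
    exact zero_le_one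

private theorem In.X_pow (n : ℕ) : In (Polynomial.X ^ n : F[X]) := by
  intro i
  rw [coeff_X_pow]
  split_ifs
  · rw [norm_one]
  · rw [norm_zero]
    exact zero_le_one

private theorem In.C {a : F} (ha : ‖a‖ ≤ 1) : In (Polynomial.C a) := by
  intro i
  rw [coeff_C]
  split_ifs
  · exact ha
  · rw [norm_zero]
    exact zero_le_one

private theorem In.sub {g h : F[X]} (hg : In g) (hh : In h) : In (g - h) := by
  intro i
  rw [coeff_sub, sub_eq_add_neg]
  refine (IsUltrametricDist.norm_add_le_max _ _).trans ?_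
  rw [norm_neg]
  exact max_le (hg i) (hh i)

private theorem In.div {g : F[X]} (hg : In g) {e : F} (he : ‖e‖ ≤ 1) :
    In (g /ₘ (Polynomial.X - Polynomial.C e)) := by
  intro i
  rw [Polynomial.coeff_divByMonic_X_sub_C]
  apply norm_sum_le_one
  intro j _
  exact norm_mul_le_one (norm_pow_le_one he _) (hg _)

private theorem norm_det_le {n : ℕ} {A : Matrix (Fin n) (Fin n) F} (h : ∀ i j, ‖A i j‖ ≤ 1) :
    ‖A.det‖ ≤ 1 := by
  rw [Matrix.det_apply']
  apply norm_sum_le_one
  intro σ _
  apply norm_mul_le_one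
  · rcases Int.units_eq_one_or (Equiv.Perm.sign σ) with h1 | h1
    · rw [h1]
      simp
    · rw [h1]
      simp
  · rw [norm_prod]
    apply Finset.prod_le_one
    · intro i _
      exact norm_nonneg _
    · intro i _
      exact h _ _

end integral

section basis

variable {F : Type*} [Field F]

/-- the new basis -/
private noncomputable def bq (P1 : F[X]) (e : F) : Fin 7 → F[X] :=
  Fin.snoc (α := fun _ => F[X]) (fun i : Fin 6 => (X - C e) * X ^ (i : ℕ)) P1

private theorem bq_cast (P1 : F[X]) (e : F) (i : Fin 6) :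
    bq P1 e i.castSucc = (X - C e) * X ^ (i : ℕ) := by
  unfold bq
  rw [Fin.snoc_castSucc]

private theorem bq_last (P1 : F[X]) (e : F) : bq P1 e (Fin.last 6) = P1 := by
  unfold bq
  rw [Fin.snoc_last]

private theorem bq_deg {P1 : F[X]} (h6 : P1.natDegree = 6) (e : F) (i : Fin 7) :
    (bq P1 e i).natDegree ≤ 6 := by
  induction i using Fin.lastCases with
  | last => rw [bq_last, h6]
  | cast i =>
    rw [bq_cast]
    refine (natDegree_mul_le).trans ?_
    rw [natDegree_X_sub_C, natDegree_X_pow]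
    omega

/-- the matrix of the new basis -/
private noncomputable def bU (P1 : F[X]) (e : F) : Matrix (Fin 7) (Fin 7) F :=
  fun i j => (bq P1 e j).coeff i

/-- the quotient in the expression of `X ^ j` -/
private noncomputable def bh (P1 : F[X]) (e : F) (j : ℕ) : F[X] :=
  (X ^ j - C (e ^ j * (eval e P1)⁻¹) * P1) /ₘ (X - C e)

private theorem bh_eq {P1 : F[X]} {e : F} (h : eval e P1 ≠ 0) (j : ℕ) :
    (X - C e) * bh P1 e j + C (e ^ j * (eval e P1)⁻¹) * P1 = X ^ j := by
  have h1 : (X - C e) * bh P1 e j = X ^ j - C (e ^ j * (eval e P1)⁻¹) * P1 := by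
    unfold bh
    rw [Polynomial.mul_divByMonic_eq_iff_isRoot, IsRoot.def, eval_sub, eval_mul, eval_C,
      eval_pow, eval_X, mul_assoc, inv_mul_cancel₀ h, mul_one, sub_self]
  rw [h1, sub_add_cancel]

private theorem bh_deg {P1 : F[X]} (h6 : P1.natDegree = 6) (e : F) {j : ℕ} (hj : j < 7) :
    (bh P1 e j).natDegree ≤ 5 := by
  unfold bh
  rw [natDegree_divByMonic _ (monic_X_sub_C e), natDegree_X_sub_C]
  have h1 : (X ^ j - C (e ^ j * (eval e P1)⁻¹) * P1).natDegree ≤ 6 := by
    refine (natDegree_sub_le _ _).trans (max_le ?_ ?_)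
    · rw [natDegree_X_pow]
      omega
    · exact (natDegree_C_mul_le _ _).trans h6.le
  omega

/-- the inverse matrix -/
private noncomputable def bV (P1 : F[X]) (e : F) : Matrix (Fin 7) (Fin 7) F :=
  fun i j => Fin.lastCases (motive := fun _ => F) (e ^ (j : ℕ) * (eval e P1)⁻¹)
    (fun i' : Fin 6 => (bh P1 e j).coeff i') i

private theorem bU_bV {P1 : F[X]} {e : F} (h6 : P1.natDegree = 6) (h : eval e P1 ≠ 0) :
    bU P1 e * bV P1 e = 1 := by
  ext i j
  rw [Matrix.mul_apply, Fin.sum_univ_castSucc]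
  have h1 : ∀ k : Fin 6, bU P1 e i k.castSucc * bV P1 e k.castSucc j =
      ((X - C e) * (C ((bh P1 e j).coeff k) * X ^ (k : ℕ))).coeff i := by
    intro k
    unfold bU bV
    rw [bq_cast, Fin.lastCases_castSucc]
    have h2 : (X - C e) * (C ((bh P1 e j).coeff k) * X ^ (k : ℕ)) =
        C ((bh P1 e j).coeff k) * ((X - C e) * X ^ (k : ℕ)) := by ring
    rw [h2, coeff_C_mul, mul_comm]
  rw [Finset.sum_congr rfl fun k _ => h1 k]
  have h3 : bU P1 e i (Fin.last 6) * bV P1 e (Fin.last 6) j =
      (C (e ^ (j : ℕ) * (eval e P1)⁻¹) * P1).coeff i := by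
    unfold bU bV
    rw [bq_last, Fin.lastCases_last, coeff_C_mul, mul_comm]
  rw [h3, ← finsetSum_coeff, ← coeff_add, ← Finset.mul_sum]
  have h4 : ∑ k : Fin 6, C ((bh P1 e j).coeff k) * X ^ (k : ℕ) = bh P1 e j := by
    have h5 := Polynomial.as_sum_range_C_mul_X_pow' (p := bh P1 e j) (n := 6)
      (by have := bh_deg h6 e j.2; omega)
    rw [Finset.sum_range] at h5
    exact h5.symm
  rw [h4, bh_eq h, coeff_X_pow, Matrix.one_apply]
  by_cases h5 : i = j
  · rw [if_pos h5, if_pos (congrArg Fin.val h5)]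
  · rw [if_neg h5, if_neg fun h => h5 (Fin.ext h)]

private theorem bU_ft (P D P1 : F[X]) (t e : F) (h6 : P1.natDegree = 6) (i j : Fin 7) :
    ((bU P1 e)ᵀ * ft P D t * bU P1 e) i j =
      lam P (D * (X - C t) * bq P1 e i * bq P1 e j) := by
  have h1 := ft_bilin P D t (cf (bq P1 e i)) (cf (bq P1 e j))
  rw [pol_cf (bq_deg h6 e i), pol_cf (bq_deg h6 e j)] at h1
  rw [← h1, Matrix.dotProduct_mulVec, Matrix.mul_apply]
  rfl

end basis

section main

variable {F : Type*} [NormedField F] [IsUltrametricDist F]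

private theorem bU_norm {P1 : F[X]} {e : F} (h6 : P1.natDegree = 6) (he : ‖e‖ ≤ 1)
    (hi : In P1) (h : ‖eval e P1‖ = 1) : ‖(bU P1 e).det‖ = 1 := by
  have h0 : eval e P1 ≠ 0 := by
    intro h0
    rw [h0, norm_zero] at h
    exact zero_ne_one h
  have h1 : ‖(bU P1 e).det‖ ≤ 1 := by
    apply norm_det_le
    intro i j
    unfold bU
    induction j using Fin.lastCases with
    | last =>
      rw [bq_last]
      exact hi _
    | cast j =>
      rw [bq_cast]
      exact (In.sub In.X (In.C he)).mul (In.X_pow _) _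
  have h2 : ∀ j : ℕ, ‖e ^ j * (eval e P1)⁻¹‖ ≤ 1 := by
    intro j
    apply norm_mul_le_one (norm_pow_le_one he _)
    rw [norm_inv, h, inv_one]
  have h3 : ‖(bV P1 e).det‖ ≤ 1 := by
    apply norm_det_le
    intro i j
    unfold bV
    induction i using Fin.lastCases with
    | last =>
      rw [Fin.lastCases_last]
      exact h2 _
    | cast i =>
      rw [Fin.lastCases_castSucc]
      exact In.div (In.sub (In.X_pow _) ((In.C (h2 _)).mul hi)) he _
  have h4 := congrArg Matrix.det (bU_bV h6 h0)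
  rw [Matrix.det_mul, Matrix.det_one] at h4
  have h5 := congrArg norm h4
  rw [norm_mul, norm_one] at h5
  apply le_antisymm h1
  by_contra h7
  rw [not_le] at h7
  have h8 : ‖(bU P1 e).det‖ * ‖(bV P1 e).det‖ < 1 :=
    mul_lt_one_of_nonneg_of_lt_one_left (norm_nonneg _) h7 h3
  rw [h5] at h8
  exact lt_irrefl _ h8

end main

theorem pf_BDC (hBDG : T_BDG) (hBDE : T_BDE) (hBIN : T_BIN) : T_BDC := by
  intro F _ _ _ _ P D P1 t e h2 hP h7 hPi hDi hA hAs ht he hPt hPP hP1 h6 hP1i hP1e hP1t hsq hDe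
  have hne : ∀ {x : F}, ‖x‖ = 1 → x ≠ 0 := by
    intro x hx h0
    rw [h0, norm_zero] at hx
    exact zero_ne_one hx
  have hU1 : ‖(bU P1 e).det‖ = 1 := bU_norm h6 he hP1i hP1e
  set U := bU P1 e with hU
  let G : Matrix (Fin 6) (Fin 6) F := fun i j =>
    lam P (D * (X - C t) * ((X - C e) * X ^ (i : ℕ)) * ((X - C e) * X ^ (j : ℕ)))
  let w : F := eval e D * (e - t) * eval e P1
  have hw : lam P (D * (X - C t) * P1 * P1) = w := by
    have h1 : P ∣ D * (X - C t) * P1 * P1 - C w * P1 := by
      have h3 : (X - C e) ∣ D * (X - C t) * P1 - C w := by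
        rw [Polynomial.dvd_iff_isRoot, IsRoot.def]
        simp [w]
      obtain ⟨q, hq⟩ := h3
      refine ⟨q, ?_⟩
      rw [← sub_mul, hq, hPP]
      ring
    rw [lam_congr hP h1, lam_C_mul]
    have h3 : lam P P1 = 1 := by
      rw [lam_of_lt hP, h7]
      · have h4 : P1.coeff P1.natDegree = 1 := hP1
        rw [h6] at h4
        exact h4
      · apply Polynomial.degree_lt_degree
        omega
    rw [h3, mul_one]
  have hG1 : Uᵀ * ft P D t * U = ex G w := by
    apply eq_ex
    · intro i j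
      rw [hU, bU_ft P D P1 t e h6, bq_cast, bq_cast]
    · intro i
      rw [hU, bU_ft P D P1 t e h6, bq_cast, bq_last]
      apply lam_dvd hP
      refine ⟨D * (X - C t) * X ^ (i : ℕ), ?_⟩
      rw [hPP]
      ring
    · intro i
      rw [hU, bU_ft P D P1 t e h6, bq_cast, bq_last]
      apply lam_dvd hP
      refine ⟨D * (X - C t) * X ^ (i : ℕ), ?_⟩
      rw [hPP]
      ring
    · rw [hU, bU_ft P D P1 t e h6, bq_last]
      exact hw
  have hPt2 : eval t P = (t - e) * eval t P1 := by
    rw [hPP]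
    simp
  have het : e - t ≠ 0 := by
    intro h0
    apply hPt
    rw [hPt2, ← neg_sub, h0, neg_zero, zero_mul]
  have hdet : G.det * (eval e D * eval e P1) = U.det ^ 2 * (eval t P1 * (gA P D 0).det) := by
    have h1 := congrArg Matrix.det hG1
    rw [ex_det, Matrix.det_mul, Matrix.det_mul, Matrix.det_transpose, hBDE F P D t hP h7] at h1
    rw [hPt2] at h1
    apply mul_left_cancel₀ het
    have h3 : (e - t) * (G.det * (eval e D * eval e P1)) = G.det * w := by
      simp only [w]
      ring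
    rw [h3, ← h1]
    ring
  have hDne := hne hDe
  have hP1ne := hne hP1e
  have hGn : ‖G.det‖ = 1 := by
    have h1 := congrArg norm hdet
    rw [norm_mul, norm_mul, norm_mul, norm_mul, norm_pow, hDe, hP1e, hU1, hP1t, hA] at h1
    simpa using h1
  have hGs : G.IsSymm := by
    ext i j
    rw [Matrix.transpose_apply]
    simp only [G]
    congr 1
    ring
  have hGi : ∀ i j, ‖G i j‖ ≤ 1 := by
    intro i j
    simp only [G]
    apply hBIN F P _ hP hPi
    have hXe : In ((X : F[X]) - C e) := In.sub In.X (In.C he)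
    have hXt : In ((X : F[X]) - C t) := In.sub In.X (In.C ht)
    have hDi' : In D := hDi
    exact ((hDi'.mul hXt).mul (hXe.mul (In.X_pow _))).mul (hXe.mul (In.X_pow _))
  obtain ⟨C', u, hC', hu, hCu⟩ := hBDG F h2 6 G hGs hGi hGn
  refine ⟨U * ex C' 1, u, w, ?_, hu, ?_, ?_, ?_, ?_⟩
  · rw [Matrix.det_mul, ex_det, mul_one]
    exact mul_ne_zero (hne hU1) hC'
  · exact mul_ne_zero (mul_ne_zero hDne het) hP1ne
  · simp only [w]
    rw [norm_mul, norm_mul, hDe, hP1e, one_mul, mul_one]
  · have h1 := congrArg Matrix.det hCu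
    rw [Matrix.det_mul, Matrix.det_mul, Matrix.det_transpose, Matrix.det_diagonal] at h1
    obtain ⟨r, hr⟩ := hsq
    obtain ⟨s, hs⟩ := hAs
    refine ⟨C'.det * U.det * r * s / eval e P1, ?_⟩
    rw [← h1]
    have h3 : -(C'.det * G.det * C'.det) * eval e D * (eval e P1 * eval e P1) =
        (C'.det * U.det * r * s) * (C'.det * U.det * r * s) := by
      have h4 : -(C'.det * G.det * C'.det) * eval e D * (eval e P1 * eval e P1) =
          -(C'.det ^ 2 * eval e P1 * (G.det * (eval e D * eval e P1))) := by ring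
      rw [h4, hdet]
      have h5 : -(C'.det ^ 2 * eval e P1 * (U.det ^ 2 * (eval t P1 * (gA P D 0).det))) =
          C'.det ^ 2 * U.det ^ 2 * (eval t P1 * eval e P1) * (-(gA P D 0).det) := by ring
      rw [h5, hr, hs]
      ring
    rw [div_mul_div_comm, ← h3, mul_div_assoc, div_self (mul_ne_zero hP1ne hP1ne), mul_one]
  · rw [Matrix.transpose_mul]
    have h1 : (ex C' 1)ᵀ * Uᵀ * ft P D t * (U * ex C' 1) =
        (ex C' 1)ᵀ * (Uᵀ * ft P D t * U) * ex C' 1 := by
      simp only [Matrix.mul_assoc]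
    rw [h1, hG1, ex_transpose, ex_mul, ex_mul, hCu, one_mul, mul_one, ex_diag]

end Pool.Agent.H7.N6B
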